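import Mathlib

set_option autoImplicit false

/-!
# Coset automatic does not imply strongly coset automatic

The example is the Heisenberg group `G` over the integers and the abelian normal subgroup `H`
of elements whose `y`-coordinate vanishes.  `G / H` is infinite cyclic, so `(G, H)` is coset
automatic, while the conjugates of a fixed element of `H` by representatives of the cosets of `H`
are pairwise different, so `(G, H)` is not strongly coset automatic.
-/

namespace Pool.Agent.Results.MP_6b1724_al.NotStrong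

variable {G : Type} [Group G]

/-- The alphabet `A = X ∪ X⁻¹`. -/
abbrev Letter (X : Finset G) : Type := {g : G // g ∈ X ∨ g⁻¹ ∈ X}

/-- The element of the group represented by a word over `X ∪ X⁻¹`. -/
def ev {X : Finset G} (w : List (Letter X)) : G := (w.map Subtype.val).prod

/-- `DistLE X g g' n` : the distance of the vertices `g`, `g'` in the Cayley graph of `G` with
respect to `X` is at most `n`. -/
def DistLE (X : Finset G) (g g' : G) (n : ℕ) : Prop :=
  ∃ w : List (Letter X), w.length ≤ n ∧ g * ev w = g'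

/-- The pair of words `(v, w)` read synchronously; the shorter word is padded at its end with
the padding symbol `none`. -/
def pad {α : Type} : List α → List α → List (Option α × Option α)
  | [], [] => []
  | a :: v, [] => (some a, none) :: pad v []
  | [], b :: w => (none, some b) :: pad [] w
  | a :: v, b :: w => (some a, some b) :: pad v w

/-- The relation `R` on words is the set of pairs accepted by a two-variable finite state
automaton reading padded pairs. -/
def SyncRegular {α : Type} (R : List α → List α → Prop) : Prop :=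
  ∃ M : Language (Option α × Option α), M.IsRegular ∧ ∀ v w, pad v w ∈ M ↔ R v w

/-- The pair `(G, H)` has an automatic coset system with respect to the finite generating set
`X`: there are an fsa with language `L` containing a representative of every right coset `H g`, and
for every `a ∈ A ∪ {ε}` (`ε` being `none`) a two-variable fsa accepting `(v, w)` if and only if
`v, w ∈ L` and `H v a = H w`. -/
def CosetAutomatic (X : Finset G) (H : Subgroup G) : Prop :=
  ∃ L : Language (Letter X), L.IsRegular ∧
    (∀ g : G, ∃ w ∈ L, ∃ h ∈ H, ev w = h * g) ∧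
    ∀ a : Option (Letter X),
      SyncRegular (fun v w => v ∈ L ∧ w ∈ L ∧ ∃ h ∈ H, ev v * ev a.toList = h * ev w)

/-- The pair `(G, H)` has a strong automatic coset system with respect to the finite generating
set `X`: an fsa with language `L` containing a representative of every right coset `H g`, and a
constant `K` such that whenever `v, w ∈ L` and `h ∈ H` satisfy `d(v, hw) ≤ 1`, then
`d(v(i), h w(i)) ≤ K` for all `i ≥ 0`. -/
def StronglyCosetAutomatic (X : Finset G) (H : Subgroup G) : Prop :=
  ∃ (L : Language (Letter X)) (K : ℕ), L.IsRegular ∧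
    (∀ g : G, ∃ w ∈ L, ∃ h ∈ H, ev w = h * g) ∧
    ∀ v ∈ L, ∀ w ∈ L, ∀ h ∈ H, DistLE X (ev v) (h * ev w) 1 →
      ∀ i : ℕ, DistLE X (ev (v.take i)) (h * ev (w.take i)) K

/-! ### Generalities -/

@[simp] lemma ev_nil {X : Finset G} : ev ([] : List (Letter X)) = 1 := rfl

@[simp] lemma ev_cons {X : Finset G} (a : Letter X) (w : List (Letter X)) :
    ev (a :: w) = a.1 * ev w := by simp [ev]

lemma ev_append {X : Finset G} (v w : List (Letter X)) : ev (v ++ w) = ev v * ev w := by
  simp [ev]

/-- The formal inverse of a letter. -/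
def invL {X : Finset G} (a : Letter X) : Letter X :=
  ⟨a.1⁻¹, by rcases a.2 with h | h
             · right; simpa using h
             · left; exact h⟩

lemma ev_inv {X : Finset G} (v : List (Letter X)) : ev (v.map invL).reverse = (ev v)⁻¹ := by
  induction v with
  | nil => simp
  | cons a v ih =>
    rw [List.map_cons, List.reverse_cons, ev_append, ih, ev_cons, ev_cons, ev_nil, mul_inv_rev]
    simp [invL]

lemma exists_word (X : Finset G) (hX : Subgroup.closure (X : Set G) = ⊤) (g : G) :
    ∃ w : List (Letter X), ev w = g := by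
  have hg : g ∈ Subgroup.closure (X : Set G) := by rw [hX]; trivial
  induction hg using Subgroup.closure_induction with
  | mem x hx => exact ⟨[⟨x, Or.inl hx⟩], by simp⟩
  | one => exact ⟨[], rfl⟩
  | mul x y _ _ hx hy =>
    obtain ⟨v, rfl⟩ := hx
    obtain ⟨w, rfl⟩ := hy
    exact ⟨v ++ w, ev_append v w⟩
  | inv x _ hx =>
    obtain ⟨v, rfl⟩ := hx
    exact ⟨(v.map invL).reverse, ev_inv v⟩

lemma letter_finite (X : Finset G) : Finite (Letter X) := by
  have : Set.Finite {g : G | g ∈ X ∨ g⁻¹ ∈ X} := by
    have h1 : Set.Finite {g : G | g ∈ X} := X.finite_toSet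
    have h2 : Set.Finite {g : G | g⁻¹ ∈ X} := by
      have : {g : G | g⁻¹ ∈ X} = (fun g => g⁻¹) '' {g : G | g ∈ X} := by
        ext g
        constructor
        · intro h
          exact ⟨g⁻¹, h, inv_inv g⟩
        · rintro ⟨k, hk, rfl⟩
          simpa using hk
      rw [this]
      exact h1.image _
    exact h1.union h2
  exact this

/-- The elements of length at most `n`. -/
def Ball (X : Finset G) (n : ℕ) : Set G := {g | ∃ w : List (Letter X), w.length ≤ n ∧ ev w = g}

lemma ball_finite (X : Finset G) (n : ℕ) : (Ball X n).Finite := by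
  have := letter_finite X
  have : Ball X n = ev '' {w : List (Letter X) | w.length ≤ n} := by
    ext g; simp [Ball]
  rw [this]
  exact (List.finite_length_le _ n).image _

/-- The key estimate: in a strong automatic coset system the element `h` joining two words of
the language is short. -/
lemma key (X : Finset G) (H : Subgroup G) (L : Language (Letter X)) (K : ℕ)
    (h1 : ∀ g : G, ∃ w ∈ L, ∃ h ∈ H, ev w = h * g)
    (h2 : ∀ v ∈ L, ∀ w ∈ L, ∀ h ∈ H, DistLE X (ev v) (h * ev w) 1 →
      ∀ i : ℕ, DistLE X (ev (v.take i)) (h * ev (w.take i)) K)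
    (u : List (Letter X)) :
    ∀ v ∈ L, ∀ w ∈ L, ∀ h ∈ H, ev v * ev u = h * ev w → h ∈ Ball X ((u.length + 1) * K) := by
  have h0 : ∀ v ∈ L, ∀ w ∈ L, ∀ h ∈ H, DistLE X (ev v) (h * ev w) 1 → h ∈ Ball X K := by
    intro v hv w hw h hh hd
    obtain ⟨r, hr, hr'⟩ := h2 v hv w hw h hh hd 0
    refine ⟨r, hr, ?_⟩
    simpa using hr'
  induction u with
  | nil =>
    intro v hv w hw h hh he
    have := h0 v hv w hw h hh ⟨[], by simp, by simpa using he⟩
    simpa using this
  | cons a u ih =>
    intro v hv w hw h hh he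
    obtain ⟨w', hw', k, hk, hk'⟩ := h1 (ev v * a.1)
    have e1 : ev v * a.1 = k⁻¹ * ev w' := by rw [hk']; group
    obtain ⟨r, hr, hr'⟩ := h0 v hv w' hw' k⁻¹ (H.inv_mem hk) ⟨[a], by simp, by simpa using e1⟩
    have e2 : ev w' * ev u = (k * h) * ev w := by
      rw [hk', mul_assoc k h, ← he, ev_cons]
      group
    obtain ⟨s, hs, hs'⟩ := ih w' hw' w hw (k * h) (H.mul_mem hk hh) e2
    refine ⟨r ++ s, ?_, ?_⟩
    · rw [List.length_append, List.length_cons]
      calc r.length + s.length ≤ K + (u.length + 1) * K := Nat.add_le_add hr hs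
        _ = (u.length + 1 + 1) * K := by ring
    · rw [ev_append, hr', hs']
      group

/-! ### The Heisenberg group -/

/-- The Heisenberg group over the integers. -/
@[ext] structure Heis where
  /-- first coordinate -/
  x : ℤ
  /-- second coordinate -/
  y : ℤ
  /-- central coordinate -/
  z : ℤ
  deriving DecidableEq

namespace Heis

instance : Mul Heis := ⟨fun a b => ⟨a.x + b.x, a.y + b.y, a.z + b.z + a.x * b.y⟩⟩
instance : One Heis := ⟨⟨0, 0, 0⟩⟩
instance : Inv Heis := ⟨fun a => ⟨-a.x, -a.y, -a.z + a.x * a.y⟩⟩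

@[simp] lemma mul_x (a b : Heis) : (a * b).x = a.x + b.x := rfl
@[simp] lemma mul_y (a b : Heis) : (a * b).y = a.y + b.y := rfl
@[simp] lemma mul_z (a b : Heis) : (a * b).z = a.z + b.z + a.x * b.y := rfl
@[simp] lemma one_x : (1 : Heis).x = 0 := rfl
@[simp] lemma one_y : (1 : Heis).y = 0 := rfl
@[simp] lemma one_z : (1 : Heis).z = 0 := rfl
@[simp] lemma inv_x (a : Heis) : (a⁻¹).x = -a.x := rfl
@[simp] lemma inv_y (a : Heis) : (a⁻¹).y = -a.y := rfl
@[simp] lemma inv_z (a : Heis) : (a⁻¹).z = -a.z + a.x * a.y := rfl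

instance : Group Heis :=
  Group.ofLeftAxioms
    (by intro a b c; ext <;> simp <;> ring)
    (by intro a; ext <;> simp)
    (by intro a; ext <;> simp)

/-- The homomorphism to `ℤ` given by the second coordinate. -/
def yHom : Heis →* Multiplicative ℤ where
  toFun a := Multiplicative.ofAdd a.y
  map_one' := rfl
  map_mul' _ _ := rfl

/-- The subgroup of elements with vanishing second coordinate. -/
def H : Subgroup Heis := yHom.ker

lemma mem_H (a : Heis) : a ∈ H ↔ a.y = 0 := by
  rw [H, MonoidHom.mem_ker]
  exact Iff.rfl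

/-- first generator -/
def gx : Heis := ⟨1, 0, 0⟩
/-- second generator -/
def gy : Heis := ⟨0, 1, 0⟩
/-- central generator -/
def gz : Heis := ⟨0, 0, 1⟩

/-- the generating set -/
def X : Finset Heis := {gx, gy, gz}

lemma gx_zpow (n : ℤ) : gx ^ n = ⟨n, 0, 0⟩ := by
  induction n using Int.induction_on with
  | zero => rfl
  | succ n ih => rw [zpow_add_one, ih]; ext <;> simp [gx]
  | pred n ih => rw [zpow_sub_one, ih]; ext <;> simp [gx]; ring

lemma gy_zpow (n : ℤ) : gy ^ n = ⟨0, n, 0⟩ := by
  induction n using Int.induction_on with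
  | zero => rfl
  | succ n ih => rw [zpow_add_one, ih]; ext <;> simp [gy]
  | pred n ih => rw [zpow_sub_one, ih]; ext <;> simp [gy]; ring

lemma gz_zpow (n : ℤ) : gz ^ n = ⟨0, 0, n⟩ := by
  induction n using Int.induction_on with
  | zero => rfl
  | succ n ih => rw [zpow_add_one, ih]; ext <;> simp [gz]
  | pred n ih => rw [zpow_sub_one, ih]; ext <;> simp [gz]; ring

lemma closure_X : Subgroup.closure (X : Set Heis) = ⊤ := by
  rw [eq_top_iff]
  intro a _
  have e : a = gz ^ a.z * (gy ^ a.y * gx ^ a.x) := by
    rw [gx_zpow, gy_zpow, gz_zpow]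
    ext <;> simp
  rw [e]
  have hx : gx ∈ Subgroup.closure (X : Set Heis) := Subgroup.subset_closure (by simp [X])
  have hy : gy ∈ Subgroup.closure (X : Set Heis) := Subgroup.subset_closure (by simp [X])
  have hz : gz ∈ Subgroup.closure (X : Set Heis) := Subgroup.subset_closure (by simp [X])
  exact mul_mem (zpow_mem hz _) (mul_mem (zpow_mem hy _) (zpow_mem hx _))

end Heis

open Heis

lemma not_strong (X : Finset Heis) (hX : Subgroup.closure (X : Set Heis) = ⊤) :
    ¬ StronglyCosetAutomatic X H := by
  rintro ⟨L, K, -, h1, h2⟩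
  obtain ⟨u, hu⟩ := exists_word X hX gx
  have hall : ∀ k : ℤ, (⟨1, 0, -k⟩ : Heis) ∈ Ball X ((u.length + 1) * K) := by
    intro k
    obtain ⟨v, hv, h, hh, he⟩ := h1 (gy ^ k)
    have hy : h.y = 0 := (mem_H h).1 hh
    apply key X H L K h1 h2 u v hv v hv _ ((mem_H _).2 rfl)
    rw [hu, he, gy_zpow]
    ext <;> simp [gx, hy]
    ring
  have hinj : Function.Injective (fun k : ℤ => (⟨1, 0, -k⟩ : Heis)) := by
    intro a b hab
    have := congrArg Heis.z hab
    simpa using this
  have hinf : (Set.range (fun k : ℤ => (⟨1, 0, -k⟩ : Heis))).Infinite :=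
    Set.infinite_range_of_injective hinj
  apply hinf
  apply (ball_finite X ((u.length + 1) * K)).subset
  rintro _ ⟨k, rfl⟩
  exact hall k

/-! ### The automatic coset system -/

section chain

variable {β : Type} [DecidableEq β]

/-- Automaton reading `p p ... p` (state `0`) and then one `q` (state `1`). -/
def chain (p q : β) (acc : Set (Fin 3)) : DFA β (Fin 3) where
  step s x := if s = 0 then (if x = p then 0 else if x = q then 1 else 2) else 2
  start := 0
  accept := acc

lemma chain_eval (p q : β) (hpq : q ≠ p) (acc : Set (Fin 3)) (w : List β) :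
    (((chain p q acc).eval w = 0) ↔ ∃ n, w = List.replicate n p) ∧
    (((chain p q acc).eval w = 1) ↔ ∃ n, w = List.replicate n p ++ [q]) := by
  induction w using List.reverseRecOn with
  | nil =>
    refine ⟨⟨fun _ => ⟨0, rfl⟩, fun _ => rfl⟩, ⟨fun h => ?_, ?_⟩⟩
    · have h' : (0 : Fin 3) = 1 := h
      exact absurd h' (by decide)
    · rintro ⟨n, hn⟩
      simp at hn
  | append_singleton w x ih =>
    rw [DFA.eval_append_singleton]
    set s := (chain p q acc).eval w with hs
    have hstep : (chain p q acc).step s x =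
      if s = 0 then (if x = p then 0 else if x = q then 1 else 2) else 2 := rfl
    rw [hstep]
    by_cases h0 : s = 0
    · rw [if_pos h0]
      obtain ⟨n, hn⟩ := ih.1.1 h0
      by_cases hp : x = p
      · rw [if_pos hp]
        refine ⟨⟨fun _ => ⟨n + 1, ?_⟩, fun _ => rfl⟩, ⟨fun h => absurd h (by decide), ?_⟩⟩
        · rw [hn, hp, List.replicate_succ']
        · rintro ⟨m, hm⟩
          have := (List.append_inj' hm rfl).2
          simp only [List.cons.injEq, and_true] at this
          exact absurd (this.symm.trans hp) hpq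
      · rw [if_neg hp]
        by_cases hq : x = q
        · rw [if_pos hq]
          refine ⟨⟨fun h => absurd h (by decide), ?_⟩, ⟨fun _ => ⟨n, ?_⟩, fun _ => rfl⟩⟩
          · rintro ⟨m, hm⟩
            have hx : x ∈ List.replicate m p := by rw [← hm]; simp
            exact absurd (List.eq_of_mem_replicate hx) hp
          · rw [hn, hq]
        · rw [if_neg hq]
          refine ⟨⟨fun h => absurd h (by decide), ?_⟩, ⟨fun h => absurd h (by decide), ?_⟩⟩
          · rintro ⟨m, hm⟩
            have hx : x ∈ List.replicate m p := by rw [← hm]; simp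
            exact absurd (List.eq_of_mem_replicate hx) hp
          · rintro ⟨m, hm⟩
            have := (List.append_inj' hm rfl).2
            simp only [List.cons.injEq, and_true] at this
            exact absurd this hq
    · rw [if_neg h0]
      refine ⟨⟨fun h => absurd h (by decide), ?_⟩, ⟨fun h => absurd h (by decide), ?_⟩⟩
      · rintro ⟨m, hm⟩
        exfalso
        apply h0
        apply ih.1.2
        refine ⟨m - 1, ?_⟩
        rcases m with _ | m
        · simp at hm
        · rw [List.replicate_succ'] at hm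
          exact (List.append_inj' hm rfl).1
      · rintro ⟨m, hm⟩
        exfalso
        apply h0
        apply ih.1.2
        exact ⟨m, (List.append_inj' hm rfl).1⟩

/-- The language of all powers of `p`. -/
def powLang (p : β) : Language β := {w : List β | ∃ n, w = List.replicate n p}

/-- The language of all powers of `p` followed by `q`. -/
def powLang' (p q : β) : Language β := {w : List β | ∃ n, w = List.replicate n p ++ [q]}

lemma regular_replicate (p q : β) (hpq : q ≠ p) : (powLang p).IsRegular := by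
  refine ⟨Fin 3, inferInstance, chain p q {0}, ?_⟩
  ext w
  rw [DFA.mem_accepts]
  exact (chain_eval p q hpq {0} w).1

lemma regular_replicate_append (p q : β) (hpq : q ≠ p) : (powLang' p q).IsRegular := by
  refine ⟨Fin 3, inferInstance, chain p q {1}, ?_⟩
  ext w
  rw [DFA.mem_accepts]
  exact (chain_eval p q hpq {1} w).2

end chain

lemma pad_inj {α : Type} : ∀ {v w v' w' : List α}, pad v w = pad v' w' → v = v' ∧ w = w' := by
  intro v
  induction v with
  | nil =>
    intro w
    induction w with
    | nil =>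
      intro v' w' h
      rcases v' with _ | ⟨a, v'⟩ <;> rcases w' with _ | ⟨b, w'⟩ <;> simp [pad] at h ⊢
    | cons b w ih =>
      intro v' w' h
      rcases v' with _ | ⟨a, v'⟩ <;> rcases w' with _ | ⟨b', w'⟩ <;> simp [pad] at h ⊢
      obtain ⟨h1, h2⟩ := h
      exact ⟨h1, (ih h2).2⟩
  | cons a v ih =>
    intro w v' w' h
    rcases w with _ | ⟨b, w⟩ <;> rcases v' with _ | ⟨a', v'⟩ <;> rcases w' with _ | ⟨b', w'⟩ <;>
      simp [pad] at h ⊢
    · obtain ⟨h1, h2⟩ := h
      exact ⟨h1, (ih h2).1⟩
    · obtain ⟨⟨h1, h2⟩, h3⟩ := h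
      obtain ⟨h4, h5⟩ := ih h3
      exact ⟨⟨h1, h4⟩, h2, h5⟩

lemma pad_rep {α : Type} (a : α) (n : ℕ) :
    pad (List.replicate n a) (List.replicate n a) = List.replicate n (some a, some a) := by
  induction n with
  | zero => simp [pad]
  | succ n ih => simp [List.replicate_succ, pad, ih]

lemma pad_rep_right {α : Type} (a : α) (n : ℕ) :
    pad (List.replicate n a) (List.replicate (n + 1) a) =
      List.replicate n (some a, some a) ++ [(none, some a)] := by
  induction n with
  | zero => simp [pad]
  | succ n ih =>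
    rw [List.replicate_succ (n := n + 1), List.replicate_succ (n := n), pad]
    rw [List.replicate_succ (n := n)] at ih
    rw [List.replicate_succ (n := n), ih]
    rfl

lemma pad_rep_left {α : Type} (a : α) (n : ℕ) :
    pad (List.replicate (n + 1) a) (List.replicate n a) =
      List.replicate n (some a, some a) ++ [(some a, none)] := by
  induction n with
  | zero => simp [pad]
  | succ n ih =>
    rw [List.replicate_succ (n := n + 1), List.replicate_succ (n := n), pad]
    rw [List.replicate_succ (n := n)] at ih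
    rw [List.replicate_succ (n := n), ih]
    rfl

/-- the letter `y` -/
def ty : Letter Heis.X := ⟨gy, by simp [Heis.X]⟩
/-- the letter `y⁻¹` -/
def tY : Letter Heis.X := ⟨gy⁻¹, by simp [Heis.X]⟩

lemma ty_ne : ty ≠ tY := by
  intro h
  have := congrArg (fun t : Letter Heis.X => t.1.y) h
  simp [ty, tY, gy] at this

/-- The language of all powers of `y` and of `y⁻¹`. -/
def LL : Language (Letter Heis.X) := powLang ty + powLang tY

lemma mem_LL (w : List (Letter Heis.X)) :
    w ∈ LL ↔ (∃ n, w = List.replicate n ty) ∨ (∃ n, w = List.replicate n tY) := Iff.rfl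

lemma ev_y (w : List (Letter Heis.X)) : (ev w).y = (w.map (fun t => t.1.y)).sum := by
  induction w with
  | nil => rfl
  | cons a w ih => simp [ih]

lemma ev_ty (n : ℕ) : (ev (List.replicate n ty)).y = n := by
  rw [ev_y]; simp [ty, gy]

lemma ev_tY (n : ℕ) : (ev (List.replicate n tY)).y = -n := by
  rw [ev_y]; simp [tY, gy]

lemma exists_h_iff (a b : Heis) : (∃ h ∈ H, a = h * b) ↔ a.y = b.y := by
  constructor
  · rintro ⟨h, hh, rfl⟩
    have := (mem_H h).1 hh
    simp [this]
  · intro h
    refine ⟨a * b⁻¹, ?_, by group⟩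
    rw [mem_H]
    simp [h]

lemma letter_y (a : Letter Heis.X) : a.1.y = 0 ∨ a.1.y = 1 ∨ a.1.y = -1 := by
  obtain ⟨a, ha⟩ := a
  rcases ha with h | h
  · simp only [Heis.X, Finset.mem_insert, Finset.mem_singleton] at h
    rcases h with rfl | rfl | rfl
    · left; rfl
    · right; left; rfl
    · left; rfl
  · simp only [Heis.X, Finset.mem_insert, Finset.mem_singleton] at h
    have hy : a.y = -(a⁻¹).y := by simp
    show a.y = 0 ∨ a.y = 1 ∨ a.y = -1
    rw [hy]
    rcases h with h | h | h <;> rw [h]
    · left; rfl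
    · right; right; rfl
    · left; rfl

instance : DecidableEq (Letter Heis.X) := inferInstance

/-- The three synchronous relations. -/
lemma sync_zero : SyncRegular (fun v w => v ∈ LL ∧ w ∈ LL ∧ (ev v).y = (ev w).y) := by
  refine ⟨_, Language.IsRegular.add
    (regular_replicate (some ty, some ty) (none, none) (by simp))
    (regular_replicate (some tY, some tY) (none, none) (by simp)), ?_⟩
  intro v w
  constructor
  · rintro (⟨n, hn⟩ | ⟨n, hn⟩)
    · rw [← pad_rep] at hn
      obtain ⟨rfl, rfl⟩ := pad_inj hn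
      exact ⟨Or.inl ⟨n, rfl⟩, Or.inl ⟨n, rfl⟩, rfl⟩
    · rw [← pad_rep] at hn
      obtain ⟨rfl, rfl⟩ := pad_inj hn
      exact ⟨Or.inr ⟨n, rfl⟩, Or.inr ⟨n, rfl⟩, rfl⟩
  · rintro ⟨⟨m, rfl⟩ | ⟨m, rfl⟩, ⟨n, rfl⟩ | ⟨n, rfl⟩, h⟩
    · rw [ev_ty, ev_ty] at h
      obtain rfl : m = n := by exact_mod_cast h
      exact Or.inl ⟨m, pad_rep _ _⟩
    · rw [ev_ty, ev_tY] at h
      obtain rfl : m = 0 := by omega
      obtain rfl : n = 0 := by omega
      exact Or.inl ⟨0, by simp [pad]⟩
    · rw [ev_ty, ev_tY] at h
      obtain rfl : m = 0 := by omega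
      obtain rfl : n = 0 := by omega
      exact Or.inl ⟨0, by simp [pad]⟩
    · rw [ev_tY, ev_tY] at h
      obtain rfl : m = n := by omega
      exact Or.inr ⟨m, pad_rep _ _⟩

lemma sync_one : SyncRegular (fun v w => v ∈ LL ∧ w ∈ LL ∧ (ev v).y + 1 = (ev w).y) := by
  refine ⟨_, Language.IsRegular.add
    (regular_replicate_append (some ty, some ty) (none, some ty) (by simp))
    (regular_replicate_append (some tY, some tY) (some tY, none) (by simp)), ?_⟩
  intro v w
  constructor
  · rintro (⟨n, hn⟩ | ⟨n, hn⟩)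
    · rw [← pad_rep_right] at hn
      obtain ⟨rfl, rfl⟩ := pad_inj hn
      refine ⟨Or.inl ⟨n, rfl⟩, Or.inl ⟨n + 1, rfl⟩, ?_⟩
      rw [ev_ty, ev_ty]; push_cast; ring
    · rw [← pad_rep_left] at hn
      obtain ⟨rfl, rfl⟩ := pad_inj hn
      refine ⟨Or.inr ⟨n + 1, rfl⟩, Or.inr ⟨n, rfl⟩, ?_⟩
      rw [ev_tY, ev_tY]; push_cast; ring
  · rintro ⟨⟨m, rfl⟩ | ⟨m, rfl⟩, ⟨n, rfl⟩ | ⟨n, rfl⟩, h⟩
    · rw [ev_ty, ev_ty] at h
      obtain rfl : n = m + 1 := by omega
      exact Or.inl ⟨m, pad_rep_right _ _⟩
    · rw [ev_ty, ev_tY] at h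
      exfalso
      omega
    · rw [ev_ty, ev_tY] at h
      have h3 : (m = 1 ∧ n = 0) ∨ (m = 0 ∧ n = 1) := by omega
      rcases h3 with ⟨rfl, rfl⟩ | ⟨rfl, rfl⟩
      · exact Or.inr ⟨0, by simp [pad]⟩
      · exact Or.inl ⟨0, by simp [pad]⟩
    · rw [ev_tY, ev_tY] at h
      obtain rfl : m = n + 1 := by omega
      exact Or.inr ⟨n, pad_rep_left _ _⟩

lemma sync_neg_one : SyncRegular (fun v w => v ∈ LL ∧ w ∈ LL ∧ (ev v).y + (-1) = (ev w).y) := by
  refine ⟨_, Language.IsRegular.add
    (regular_replicate_append (some ty, some ty) (some ty, none) (by simp))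
    (regular_replicate_append (some tY, some tY) (none, some tY) (by simp)), ?_⟩
  intro v w
  constructor
  · rintro (⟨n, hn⟩ | ⟨n, hn⟩)
    · rw [← pad_rep_left] at hn
      obtain ⟨rfl, rfl⟩ := pad_inj hn
      refine ⟨Or.inl ⟨n + 1, rfl⟩, Or.inl ⟨n, rfl⟩, ?_⟩
      rw [ev_ty, ev_ty]; push_cast; ring
    · rw [← pad_rep_right] at hn
      obtain ⟨rfl, rfl⟩ := pad_inj hn
      refine ⟨Or.inr ⟨n, rfl⟩, Or.inr ⟨n + 1, rfl⟩, ?_⟩
      rw [ev_tY, ev_tY]; push_cast; ring
  · rintro ⟨⟨m, rfl⟩ | ⟨m, rfl⟩, ⟨n, rfl⟩ | ⟨n, rfl⟩, h⟩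
    · rw [ev_ty, ev_ty] at h
      obtain rfl : m = n + 1 := by omega
      exact Or.inl ⟨n, pad_rep_left _ _⟩
    · rw [ev_ty, ev_tY] at h
      have h3 : (m = 1 ∧ n = 0) ∨ (m = 0 ∧ n = 1) := by omega
      rcases h3 with ⟨rfl, rfl⟩ | ⟨rfl, rfl⟩
      · exact Or.inl ⟨0, by simp [pad]⟩
      · exact Or.inr ⟨0, by simp [pad]⟩
    · rw [ev_ty, ev_tY] at h
      exfalso
      omega
    · rw [ev_tY, ev_tY] at h
      obtain rfl : n = m + 1 := by omega
      exact Or.inr ⟨m, pad_rep_right _ _⟩

lemma cosetAutomatic : CosetAutomatic Heis.X H := by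
  refine ⟨LL, ?_, ?_, ?_⟩
  · exact Language.IsRegular.add (regular_replicate ty tY ty_ne.symm)
      (regular_replicate tY ty ty_ne)
  · intro g
    rcases le_total 0 g.y with h | h
    · refine ⟨List.replicate g.y.toNat ty, Or.inl ⟨_, rfl⟩, (exists_h_iff _ _).2 ?_⟩
      rw [ev_ty]; omega
    · refine ⟨List.replicate (-g.y).toNat tY, Or.inr ⟨_, rfl⟩, (exists_h_iff _ _).2 ?_⟩
      rw [ev_tY]; omega
  · intro a
    simp only [exists_h_iff]
    rcases a with _ | a
    · simpa using sync_zero
    · have e : ∀ v : List (Letter Heis.X), (ev v * ev (Option.toList (some a))).y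
          = (ev v).y + a.1.y := by
        intro v; simp
      simp only [e]
      rcases letter_y a with h | h | h
      · rw [h]; simpa using sync_zero
      · rw [h]; exact sync_one
      · rw [h]; exact sync_neg_one

/-- There are a finitely generated group `G` and a subgroup `H` such that `(G, H)` is coset
automatic, but not strongly coset automatic (with respect to any finite generating set). -/
theorem result : ∃ (G : Type) (_ : Group G) (H : Subgroup G),
    (∃ X : Finset G, Subgroup.closure (X : Set G) = ⊤ ∧ CosetAutomatic X H) ∧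
    ∀ X : Finset G, Subgroup.closure (X : Set G) = ⊤ → ¬ StronglyCosetAutomatic X H :=
  ⟨Heis, inferInstance, H, ⟨Heis.X, closure_X, cosetAutomatic⟩, not_strong⟩

end Pool.Agent.Results.MP_6b1724_al.NotStrong
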